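import Mathlib

open FirstOrder Language Filter

namespace Pool.Agent.Results.MP_0a3202_lc.NotConvex

universe u

/-- The language with a symbol for every finitary operation and relation on `N`. -/
def Full (N : Type) : Language where
  Functions n := (Fin n → N) → N
  Relations n := Set (Fin n → N)

/-- The tautological structure on `N`. -/
@[reducible] def std (N : Type) : (Full N).Structure N where
  funMap f x := f x
  RelMap {n} R x := x ∈ (show Set (Fin n → N) from R)

/-- The star-extension of a set. -/
def star {N : Type} (M : Type*) [(Full N).Structure M] (A : Set N) : Set M :=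
  {x | Structure.RelMap (L := Full N) (n := 1) ({v | v 0 ∈ A} : Set (Fin 1 → N)) ![x]}

/-- The star-extension of divisibility. -/
def SDvd (N : Type) [Dvd N] {M : Type*} [(Full N).Structure M] (x y : M) : Prop :=
  Structure.RelMap (L := Full N) (n := 2) ({v | v 0 ∣ v 1} : Set (Fin 2 → N)) ![x, y]

/-- The monad of an ultrafilter. -/
def monad {N : Type} (M : Type*) [(Full N).Structure M] (F : Ultrafilter N) : Set M :=
  {x | ∀ A ∈ F, x ∈ star M A}

/-- In every nonstandard extension of `N` with nonempty monads some monad is not convex. -/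
def Fails (N : Type) [Dvd N] : Prop :=
  ∀ (M : Type u) [(Full N).Structure M], @ElementarilyEquivalent (Full N) N M (std N) _ →
    (∀ F : Ultrafilter N, (monad M F).Nonempty) →
    ∃ (F : Ultrafilter N) (x y z : M), x ∈ monad M F ∧ y ∈ monad M F ∧ SDvd N x z ∧ SDvd N z y ∧
      z ∉ monad M F

lemma fails (N : Type) [Dvd N] (p : ℕ → N) (hp : Function.Injective p)
    (hd : ∀ a b, a ≤ b → p a ∣ p b) : Fails.{u} N := by
  intro M _ hM hμ
  let _ := std N
  let ap : (N → N) → M → M := fun f x =>
    Structure.funMap (L := Full N) (n := 1) (fun v : Fin 1 → N => f (v 0)) ![x]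
  let tm : (N → N) → (Full N).Term (Empty ⊕ Fin 1) := fun f =>
    Functions.apply₁ (L := Full N) (fun v : Fin 1 → N => f (v 0)) (&0)
  let rl : Set N → (Full N).Relations 1 := fun A => ({v | v 0 ∈ A} : Set (Fin 1 → N))
  let dv : (Full N).Relations 2 := ({v | v 0 ∣ v 1} : Set (Fin 2 → N))
  have T1 : ∀ f A x, x ∈ star M (f ⁻¹' A) → ap f x ∈ star M A := by
    intro f A
    have := (hM.realize_sentence (∀' ((rl (f ⁻¹' A)).boundedFormula₁ (&0) ⟹
      (rl A).boundedFormula₁ (tm f)))).1 (by
        simp only [Sentence.Realize, Formula.Realize, BoundedFormula.realize_all,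
          BoundedFormula.realize_imp, BoundedFormula.realize_rel₁]
        exact fun a h => h)
    simp only [Sentence.Realize, Formula.Realize, BoundedFormula.realize_all,
          BoundedFormula.realize_imp, BoundedFormula.realize_rel₁] at this
    intro x hx
    have h2 := this x hx
    simp only [tm, Term.realize_functions_apply₁] at h2
    exact h2
  have T2 : ∀ f g : N → N, (∀ n, f n ∣ g n) → ∀ x, SDvd N (ap f x) (ap g x) := by
    intro f g h
    have := (hM.realize_sentence (∀' (dv.boundedFormula₂ (tm f) (tm g)))).1 (by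
        simp only [Sentence.Realize, Formula.Realize, BoundedFormula.realize_all,
          BoundedFormula.realize_rel₂]
        exact fun a => h a)
    simp only [Sentence.Realize, Formula.Realize, BoundedFormula.realize_all,
          BoundedFormula.realize_rel₂, tm, Term.realize_functions_apply₁] at this
    exact this
  have T3 : ∀ (f : N → N) (A : Set N), (∀ n, f n ∉ A) → ∀ x, ap f x ∉ star M A := by
    intro f A h
    have := (hM.realize_sentence (∀' ∼((rl A).boundedFormula₁ (tm f)))).1 (by
        simp only [Sentence.Realize, Formula.Realize, BoundedFormula.realize_all,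
          BoundedFormula.realize_not, BoundedFormula.realize_rel₁]
        exact fun a => h a)
    simp only [Sentence.Realize, Formula.Realize, BoundedFormula.realize_all,
          BoundedFormula.realize_not, BoundedFormula.realize_rel₁, tm,
          Term.realize_functions_apply₁] at this
    exact this
  let U : Ultrafilter ℕ := hyperfilter ℕ
  let H : Ultrafilter (ℕ × ℕ) := U.bind fun a => U.map fun b => (a, b)
  have hH : ∀ S : Set (ℕ × ℕ), S ∈ H ↔ ∀ᶠ a in (U : Filter ℕ), ∀ᶠ b in (U : Filter ℕ), (a, b) ∈ S :=
    fun S => Iff.rfl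
  let r : N → ℕ × ℕ := fun n => Nat.unpair (Function.invFun p n)
  have hr : ∀ a b : ℕ, r (p (Nat.pair a b)) = (a, b) := fun a b => by
    simp only [r, Function.leftInverse_invFun hp _, Nat.unpair_pair]
  obtain ⟨w, hw⟩ := hμ (H.map fun s => p (Nat.pair s.1 s.2))
  refine ⟨U.map fun a => p (2 * a), ap (fun n => p (2 * (r n).1)) w,
    ap (fun n => p (2 * max ((r n).1 + 1) (r n).2)) w, ap (fun n => p (2 * (r n).1 + 1)) w,
    fun A hA => T1 (fun n => p (2 * (r n).1)) A w (hw _ ?_),
    fun A hA => T1 (fun n => p (2 * max ((r n).1 + 1) (r n).2)) A w (hw _ ?_),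
    T2 (fun n => p (2 * (r n).1)) (fun n => p (2 * (r n).1 + 1)) (fun n => hd _ _ ?_) w,
    T2 (fun n => p (2 * (r n).1 + 1)) (fun n => p (2 * max ((r n).1 + 1) (r n).2))
      (fun n => hd _ _ ?_) w,
    fun h => T3 (fun n => p (2 * (r n).1 + 1)) (Set.range fun a => p (2 * a)) (fun n hn => ?_) w (h _ range_mem_map)⟩
  · refine (hH _).2 (mem_of_superset hA fun a ha => Eventually.of_forall fun b => ?_)
    simpa only [Set.mem_preimage, hr] using ha
  · refine (hH _).2 (Eventually.of_forall fun a => ?_)
    have h1 : ∀ᶠ b in (U : Filter ℕ), a + 1 ≤ b :=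
      (Nat.hyperfilter_le_atTop) (eventually_ge_atTop (a + 1))
    refine (h1.and hA).mono fun b hb => ?_
    simpa only [Set.mem_preimage, hr, max_eq_right hb.1] using hb.2
  · omega
  · omega
  · obtain ⟨a, ha⟩ := hn
    have := hp ha
    omega

/-- Such extensions exist. -/
def Exists' (N : Type) : Prop :=
  ∃ (M : Type) (_ : (Full N).Structure M), @ElementarilyEquivalent (Full N) N M (std N) _ ∧
    ∀ F : Ultrafilter N, (monad M F).Nonempty

lemma ex (N : Type) [Nonempty N] : Exists' N := by
  let _ := std N
  let V : Ultrafilter (Ultrafilter N → N) :=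
    Ultrafilter.of (Filter.pi fun F : Ultrafilter N => (F : Filter N))
  have hV : (V : Filter _) ≤ Filter.pi fun F : Ultrafilter N => (F : Filter N) := Ultrafilter.of_le _
  refine ⟨(V : Filter _).Product fun _ => N, inferInstance,
    elementarilyEquivalent_iff.2 fun φ => ?_, fun F => ⟨Quotient.mk _ (fun j : Ultrafilter N → N => j F), fun A hA => ?_⟩⟩
  · rw [Ultraproduct.sentence_realize, eventually_const]
  · have := (relMap_quotient_mk' (L := Full N) ((V : Filter _).productSetoid fun _ => N)
      (ps := Ultraproduct.setoidPrestructure (fun _ => N) V) (n := 1)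
      ({v | v 0 ∈ A} : Set (Fin 1 → N)) ![fun j : Ultrafilter N → N => j F]).2
      (((tendsto_eval_pi _ F).mono_left hV).eventually hA)
    have e : (fun i => (⟦![fun j : Ultrafilter N → N => j F] i⟧ :
        Quotient ((V : Filter _).productSetoid fun _ => N))) = ![⟦fun j => j F⟧] := by
      funext i
      fin_cases i
      rfl
    rw [e] at this
    exact this

theorem result : (Exists' ℕ ∧ Exists' ℕ+) ∧ Fails.{u} ℕ ∧ Fails.{u} ℕ+ :=
  ⟨⟨ex ℕ, ex ℕ+⟩, fails ℕ (2 ^ ·) (Nat.pow_right_injective le_rfl) fun _ _ h => pow_dvd_pow 2 h,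
    fails ℕ+ (2 ^ ·) (fun a b h => Nat.pow_right_injective (a := 2) le_rfl
      (by simpa using congrArg PNat.val h)) fun _ _ h => pow_dvd_pow 2 h⟩

end Pool.Agent.Results.MP_0a3202_lc.NotConvex
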